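import Mathlib
import Pool.Agent.R747.SurfS3
import Pool.Agent.R747.TearOrient

/-!
# A non-orientable flat surface in `S³` with a closed asymptotic line (MP_ab5f6d_gt, Q1)

We disprove the statement of Q1: there is a connected, embedded, `C^∞` surface in the unit sphere
`S³ ⊂ ℝ⁴` whose induced metric is locally Euclidean, which is non-orientable and which contains
closed asymptotic lines (great circles of the Hopf fibration). The surface is the union of Hopf
circles over a ray and of Hopf semicircles over the loop of a teardrop in `ℂ = S² \ {∞}`.
-/

open Set
open scoped ContDiff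

namespace Pool.Agent.Results.MP_ab5f6d_gt.TeardropTube

open Pool.Agent.R747

theorem result : ∃ (M : Type) (_ : TopologicalSpace M) (f : M → E4),
    T2Space M ∧ SecondCountableTopology M ∧ ConnectedSpace M ∧ Topology.IsEmbedding f ∧
    IsSurfaceInSphere ∞ f ∧ IsLocallyEuclidean ∞ f ∧ ¬ IsOrientableSurface f ∧
    HasClosedAsymptoticLine f :=
  ⟨Teardrop.surf, inferInstance, Subtype.val, inferInstance, inferInstance,
    Teardrop.surf_connected, Topology.IsEmbedding.subtypeVal, Teardrop.is_surface,
    Teardrop.is_flat, Teardrop.not_orientable, Teardrop.closed_asymptotic⟩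

end Pool.Agent.Results.MP_ab5f6d_gt.TeardropTube
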